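import Pool.Agent.helper50.BS.SpecU

/-! # Project bs, module UC3 -/

set_option autoImplicit false
set_option linter.unusedVariables false
set_option linter.dupNamespace false

open scoped Classical

noncomputable section

namespace Pool.Agent.helper50.BT

open Pool.Agent.helper81.PL

theorem UC3 (hUC2 : UC2_stmt) (hUB1 : UB1_stmt) (hUB3 : UB3_stmt) (hUB5 : UB5_stmt)
    (hUB6 : UB6_stmt) (hTB5 : BS.TB5_stmt) (hUA1 : UA1_stmt) (hUA2 : UA2_stmt) : UC3_stmt := by
  intro N M n k E W PP Tl h T H U hU hUc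
  have hpart : helper81.BS.IsPart W PP := H.tight.1.1
  obtain ⟨hnd, hip, hb⟩ := hUA2 n E W h PP hpart
  have hbig : n * n + n + 1 + 4 ^ (2 * k) + 2 ^ (6 * k + 1) + (n + 1) * (k + 1) * (3 * k + 1) + M ≤ N :=
    H.big
  have hUE : ∀ e ∈ U, e < N := by
    intro e he
    have h1 := hU he
    have h2 : e ∈ E := by
      unfold helper81.BS.beta helper81.BS.tch at h1
      rw [Finset.mem_filter, Finset.mem_filter] at h1
      exact h1.1.1
    have h3 := (hUA1 n E h).2.2.2.2 e h2
    generalize n * n = A at *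
    generalize 4 ^ (2 * k) = B at *
    generalize 2 ^ (6 * k + 1) = C at *
    generalize (n + 1) * (k + 1) * (3 * k + 1) = D at *
    omega
  have hUp : 2 ^ U.card ≤ N := by
    have h1 : 2 ^ U.card ≤ 2 ^ (6 * k + 1) := Nat.pow_le_pow_right (by norm_num) hUc
    generalize n * n = A at *
    generalize 4 ^ (2 * k) = B at *
    generalize 2 ^ (6 * k + 1) = C at *
    generalize (n + 1) * (k + 1) * (3 * k + 1) = D at *
    omega
  have hsz : (n + 1) * (k + 1) * (3 * k + 1) ≤ N := by
    generalize n * n = A at *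
    generalize 4 ^ (2 * k) = B at *
    generalize 2 ^ (6 * k + 1) = C at *
    generalize (n + 1) * (k + 1) * (3 * k + 1) = D at *
    omega
  have hMN : M ≤ N := by
    generalize n * n = A at *
    generalize 4 ^ (2 * k) = B at *
    generalize 2 ^ (6 * k + 1) = C at *
    generalize (n + 1) * (k + 1) * (3 * k + 1) = D at *
    omega
  obtain ⟨hnod, hmem⟩ := hUB1 N U hUE hUp
  have hsum := (hUB6 N M n k (3 * k) T (Finset ℕ) (psub N U)
    (fun S => mulT M n k (3 * k) (monT M n k (3 * k) 0 0 S.card) (wT N M n k (3 * k) E Tl PP S))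
    (fun S => T.u ^ S.card * BS.wR (ig n E h) T.x T.y PP.toFinset S) H.two hsz hMN (by
      intro S hS
      have h1 := (hUB3 M n k (3 * k) T H.two).1 0 0 S.card
      have h2 := hUC2 N M n k E W PP Tl h T H S
      have h3 := hUB5 M n k (3 * k) T _ _ _ _ H.two h1 h2
      rw [pow_zero, pow_zero, one_mul, one_mul] at h3
      exact h3)).2
  have e1 : ((psub N U).map fun S => T.u ^ S.card * BS.wR (ig n E h) T.x T.y PP.toFinset S).sum =
      ∑ S ∈ U.powerset, T.u ^ S.card * BS.wR (ig n E h) T.x T.y PP.toFinset S := by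
    rw [← List.sum_toFinset _ hnod]
    refine Finset.sum_congr ?_ fun _ _ => rfl
    ext Q
    rw [List.mem_toFinset, hmem, Finset.mem_powerset]
  rw [e1, hTB5 (ig n E h) T.R T.x T.y T.u PP.toFinset W U hip (by rw [hb]; exact hU), hb] at hsum
  exact hsum

end Pool.Agent.helper50.BT

end

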